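import Pool.Agent.H47.TB.Ex
import Pool.Agent.H47.TA.Crit

/-!
# The complex form of the density property implies the real one
-/

set_option autoImplicit false

namespace Pool.Agent.H47.TB

open Set Filter Topology Metric H67.Tame H67.Tame.Stmt

variable {E : Type*} [NormedAddCommGroup E] [InnerProductSpace ℂ E] [FiniteDimensional ℂ E]
variable {X : Set E}

theorem IsBracket.smul_left {V W Z : X → E} (h : IsBracket V W Z) (c : ℂ) : IsBracket (c • V) W (c • Z) := by
  intro x
  obtain ⟨U, V', W', hU, hx, hV, hW, he, hZ⟩ := h x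
  refine ⟨U, c • V', W', hU, hx, hV.const_smul c, hW, fun y hy => ⟨?_, (he y hy).2⟩, ?_⟩
  · rw [Pi.smul_apply, Pi.smul_apply, (he y hy).1]
  · have h1 : fderiv ℂ (c • V') x = c • fderiv ℂ V' x :=
      fderiv_const_smul (hV.differentiableAt (hU.mem_nhds hx)) c
    rw [h1, Pi.smul_apply, Pi.smul_apply, hZ, map_smul, smul_sub]
    rfl

theorem lieAlg_real {V : X → E} (h : LieAlg ℂ ComplexComplete V) : ∀ c : ℂ, LieAlg ℝ RealComplete (c • V) := by
  induction h with
  | gen V hV hc => exact fun c => LieAlg.gen _ (hV.smul c) (hc.real c)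
  | add V W _ _ ihV ihW =>
    intro c
    rw [smul_add]
    exact LieAlg.add _ _ (ihV c) (ihW c)
  | smul d V _ ih =>
    intro c
    rw [smul_smul]
    exact ih (c * d)
  | bracket V W Z _ _ hZ ihV ihW =>
    intro c
    have h2 := ihW 1
    rw [one_smul] at h2
    exact LieAlg.bracket _ _ _ (ihV c) h2 (IsBracket.smul_left hZ c)

theorem densityR_of_C (h : DensityC X) : DensityR X := by
  intro V hV K hK ε hε
  obtain ⟨W, hW, h1⟩ := h V hV K hK ε hε
  have h2 := lieAlg_real hW 1
  rw [one_smul] at h2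
  exact ⟨W, h2, h1⟩

end Pool.Agent.H47.TB
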