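import Pool.Agent.H47.TB.Space

/-!
# Two disjoint copies of the plane have the density property: the Lie algebra

`u = χ x_i^a x_k^(b+1) ∂_k`, `v = χ x_i^(a+1) x_k^b ∂_i`:
`[χ x_i x_k^(b+1) ∂_i, χ x_i^a ∂_k] = a u - (b+1) v`, `[χ x_k^b ∂_i, χ x_k x_i^(a+1) ∂_k] = (a+1) u - b v`, and the determinant is `a + b + 1`.
-/

set_option autoImplicit false

namespace Pool.Agent.H47.TB

open Set Filter Topology Metric H67.Tame H67.Tame.Stmt

/-- the Lie algebra generated by the complete fields -/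
abbrev LA (V : X2 → E3) : Prop := LieAlg ℂ ComplexComplete V

theorem LA.sub {V W : X2 → E3} (hV : LA V) (hW : LA W) : LA (V - W) := by
  have h := LieAlg.add _ _ hV (LieAlg.smul (-1 : ℂ) _ hW)
  have e : V + (-1 : ℂ) • W = V - W := by
    rw [neg_one_smul, sub_eq_add_neg]
  rwa [e] at h

theorem diff_pow (i : Fin 3) (a : ℕ) : Differentiable ℂ fun z : E3 => z i ^ a := (diff_coord i).pow a

theorem diff_mon (i k : Fin 3) (a b : ℕ) : Differentiable ℂ fun z : E3 => z i ^ a * z k ^ b :=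
  (diff_pow i a).mul (diff_pow k b)

theorem hasF_mon (i k : Fin 3) (a b : ℕ) (z : E3) : HasFDerivAt (fun z : E3 => z i ^ a * z k ^ b)
    ((z i ^ a) • (((b : ℂ) * z k ^ (b - 1)) • pr k) + (z k ^ b) • (((a : ℂ) * z i ^ (a - 1)) • pr i)) z := by
  have h := ((hasF i z).pow a).mul ((hasF k z).pow b)
  simp only [nsmul_eq_mul] at h
  exact h

theorem fderiv_mon_fst {i k : Fin 3} (hik : i ≠ k) (a b : ℕ) (z : E3) :
    fderiv ℂ (fun z : E3 => z i ^ a * z k ^ b) z (un i) = a * z i ^ (a - 1) * z k ^ b := by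
  rw [(hasF_mon i k a b z).fderiv]
  simp [hik.symm]
  ring

theorem fderiv_mon_snd {i k : Fin 3} (hik : i ≠ k) (a b : ℕ) (z : E3) :
    fderiv ℂ (fun z : E3 => z i ^ a * z k ^ b) z (un k) = b * z i ^ a * z k ^ (b - 1) := by
  rw [(hasF_mon i k a b z).fderiv]
  simp [hik]
  ring

theorem LA_shear (c : Bool) {i k : Fin 3} (hi : i ≠ 2) (hik : i ≠ k) (b : ℕ) :
    LA (rs (fld c i fun z => z k ^ b)) :=
  LieAlg.gen _ (isField_fld c hi (diff_pow k b)) (complete_shear c hi hik b)

theorem LA_over (c : Bool) {i k : Fin 3} (hi : i ≠ 2) (hik : i ≠ k) (b : ℕ) :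
    LA (rs (fld c i fun z => z i ^ 1 * z k ^ b)) := by
  have e : (fun z : E3 => z i ^ 1 * z k ^ b) = fun z => z i * z k ^ b := by
    funext z
    rw [pow_one]
  refine LieAlg.gen _ (isField_fld c hi (diff_mon i k 1 b)) ?_
  rw [e]
  exact complete_over c hi hik b

theorem LA_mon (c : Bool) {i k : Fin 3} (hi : i ≠ 2) (hk : k ≠ 2) (hik : i ≠ k) (a b : ℕ) :
    LA (rs (fld c k fun z => z i ^ a * z k ^ b)) := by
  rcases b with _ | b
  · have h := LA_shear c hk hik.symm a
    have e : (fun z : E3 => z i ^ a * z k ^ 0) = fun z => z i ^ a := by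
      funext z
      rw [pow_zero, mul_one]
    rw [e]
    exact h
  · -- first bracket
    have h1 := LieAlg.bracket _ _ _ (LA_over c hi hik (b + 1)) (LA_shear c hk hik.symm a)
      (bracket_fld c hi hk (diff_mon i k 1 (b + 1)) (diff_pow i a))
    have h2 := LieAlg.bracket _ _ _ (LA_shear c hi hik b) (LA_over c hk hik.symm (a + 1))
      (bracket_fld c hi hk (diff_pow k b) (diff_mon k i 1 (a + 1)))
    have hpow : ∀ (j : Fin 3) (n : ℕ), (fun z : E3 => z j ^ n) = fun z : E3 => z j ^ n * z k ^ 0 := by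
      intro j n
      funext z
      rw [pow_zero, mul_one]
    have hpow' : ∀ (j : Fin 3) (n : ℕ), (fun z : E3 => z j ^ n) = fun z : E3 => z i ^ 0 * z j ^ n := by
      intro j n
      funext z
      rw [pow_zero, one_mul]
    have d1 : ∀ z : E3, fderiv ℂ (fun z : E3 => z i ^ a) z (un i) = a * z i ^ (a - 1) := by
      intro z
      rw [hpow i a, fderiv_mon_fst hik]
      rw [pow_zero, mul_one]
    have d2 : ∀ z : E3, fderiv ℂ (fun z : E3 => z k ^ b) z (un k) = b * z k ^ (b - 1) := by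
      intro z
      rw [hpow' k b, fderiv_mon_snd hik]
      rw [pow_zero, mul_one]
    have hap : ∀ (n : ℕ) (w : ℂ), (n : ℂ) * w ^ (n - 1) * w = n * w ^ n := by
      intro n w
      rcases n with _ | n
      · simp
      · rw [Nat.add_sub_cancel, mul_assoc, ← pow_succ]
    have hne : ((a : ℂ) + b + 1) ≠ 0 := by
      exact_mod_cast Nat.succ_ne_zero (a + b)
    have h3 := LieAlg.smul (((a : ℂ) + b + 1)⁻¹) _ (LieAlg.add _ _ (LieAlg.smul (-(b : ℂ)) _ h1)
      (LieAlg.smul ((b : ℂ) + 1) _ h2))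
    have e0 : ((a : ℂ) + b + 1)⁻¹ • (-(b : ℂ) • (rs fun z => fld c k (fun z => z i ^ 1 * z k ^ (b + 1) *
        fderiv ℂ (fun z : E3 => z i ^ a) z (un i)) z - fld c i (fun z => z i ^ a *
        fderiv ℂ (fun z : E3 => z i ^ 1 * z k ^ (b + 1)) z (un k)) z) + ((b : ℂ) + 1) •
        rs fun z => fld c k (fun z => z k ^ b * fderiv ℂ (fun z : E3 => z k ^ 1 * z i ^ (a + 1)) z (un i)) z -
        fld c i (fun z => z k ^ 1 * z i ^ (a + 1) * fderiv ℂ (fun z : E3 => z k ^ b) z (un k)) z) =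
        rs (fld c k fun z => z i ^ a * z k ^ (b + 1)) := by
      funext x
      have e1 := hap a ((x : E3) i)
      have e2 := hap b ((x : E3) k)
      simp only [Pi.smul_apply, Pi.add_apply, rs, fld]
      rw [d1, d2, fderiv_mon_snd hik, fderiv_mon_snd hik.symm]
      have f1 : chi c x * ((x : E3) i ^ 1 * (x : E3) k ^ (b + 1) * (a * (x : E3) i ^ (a - 1))) =
          a * (chi c x * ((x : E3) i ^ a * (x : E3) k ^ (b + 1))) := by
        linear_combination (chi c x * (x : E3) k ^ (b + 1)) * e1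
      have f2 : chi c x * ((x : E3) i ^ a * (((b + 1 : ℕ) : ℂ) * (x : E3) i ^ 1 * (x : E3) k ^ (b + 1 - 1))) =
          (b + 1) * (chi c x * ((x : E3) i ^ (a + 1) * (x : E3) k ^ b)) := by
        rw [Nat.add_sub_cancel]
        push_cast
        ring
      have f3 : chi c x * ((x : E3) k ^ b * (((a + 1 : ℕ) : ℂ) * (x : E3) k ^ 1 * (x : E3) i ^ (a + 1 - 1))) =
          (a + 1) * (chi c x * ((x : E3) i ^ a * (x : E3) k ^ (b + 1))) := by
        rw [Nat.add_sub_cancel]
        push_cast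
        ring
      have f4 : chi c x * ((x : E3) k ^ 1 * (x : E3) i ^ (a + 1) * (b * (x : E3) k ^ (b - 1))) =
          b * (chi c x * ((x : E3) i ^ (a + 1) * (x : E3) k ^ b)) := by
        linear_combination (chi c x * (x : E3) i ^ (a + 1)) * e2
      rw [f1, f2, f3, f4]
      generalize chi c x * ((x : E3) i ^ a * (x : E3) k ^ (b + 1)) = u
      generalize chi c x * ((x : E3) i ^ (a + 1) * (x : E3) k ^ b) = v
      have f5 : -(b : ℂ) • ((a * u) • un k - ((b + 1) * v) • un i) + ((b : ℂ) + 1) • (((a + 1) * u) • un k - (b * v) • un i) =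
          ((a : ℂ) + b + 1) • (u • un k) := by
        module
      rw [f5, inv_smul_smul₀ hne]
    rw [← e0]
    exact h3

theorem LA_zero : LA (0 : X2 → E3) := by
  have h := LieAlg.smul (0 : ℂ) _ (LA_shear false (i := 0) (k := 1) (by decide) (by decide) 0)
  rwa [zero_smul] at h

/-- all polynomial fields on one copy -/
theorem LA_poly (c : Bool) {j : Fin 3} (hj : j ≠ 2) {p : ℂ × ℂ → ℂ} (hp : p ∈ P2) :
    LA (rs (fld c j fun z => p (z 0, z 1))) := by
  induction hp using Submodule.span_induction with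
  | mem x hx =>
    obtain ⟨a, rfl⟩ := hx
    have h01 : j = 0 ∨ j = 1 := by
      fin_cases j
      · left; rfl
      · right; rfl
      · exact absurd rfl hj
    rcases h01 with rfl | rfl
    · have h := LA_mon c (i := 1) (k := 0) (by decide) (by decide) (by decide) a.2 a.1
      have e : (fun z : E3 => z 1 ^ a.2 * z 0 ^ a.1) = fun z : E3 => z 0 ^ a.1 * z 1 ^ a.2 := by
        funext z
        rw [mul_comm]
      rw [e] at h
      exact h
    · exact LA_mon c (i := 0) (k := 1) (by decide) (by decide) (by decide) a.1 a.2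
  | zero =>
    have e : rs (fld c j fun z => (0 : ℂ × ℂ → ℂ) (z 0, z 1)) = 0 := by
      funext x
      simp [rs, fld]
    rw [e]
    exact LA_zero
  | add x y _ _ hx hy =>
    have e : rs (fld c j fun z => (x + y) (z 0, z 1)) =
        rs (fld c j fun z => x (z 0, z 1)) + rs (fld c j fun z => y (z 0, z 1)) := by
      funext z
      simp only [rs, fld, Pi.add_apply]
      rw [mul_add, add_smul]
    rw [e]
    exact LieAlg.add _ _ hx hy
  | smul d x _ hx =>
    have e : rs (fld c j fun z => (d • x) (z 0, z 1)) = d • rs (fld c j fun z => x (z 0, z 1)) := by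
      funext z
      simp only [rs, fld, Pi.smul_apply, smul_eq_mul, smul_smul]
      congr 1
      ring
    rw [e]
    exact LieAlg.smul d _ hx

/-- the third coordinate of tangent vectors vanishes -/
theorem tang_two {x : E3} (hx : x ∈ X2) {v : E3} (hv : v ∈ tang X2 x) : v 2 = 0 := by
  have h1 : HasFDerivAt (fun z : E3 => z 2 * (z 2 - 1)) (x 2 • pr 2 + (x 2 - 1) • pr 2) x :=
    (hasF 2 x).mul ((hasF 2 x).sub_const 1)
  have h2 := hv (fun z : E3 => z 2 * (z 2 - 1)) ((diff_coord 2).mul ((diff_coord 2).sub_const 1)) fun y hy => hy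
  rw [h1.fderiv] at h2
  have h3 : x 2 * v 2 + (x 2 - 1) * v 2 = 0 := h2
  rcases mem_X2.1 hx with h4 | h4
  · rw [h4] at h3
    linear_combination -h3
  · rw [h4] at h3
    linear_combination h3

/-- the points of the two copies -/
noncomputable def pt (c : Bool) (p : ℂ × ℂ) : E3 := p.1 • un 0 + p.2 • un 1 + (if c then 1 else 0 : ℂ) • un 2

theorem pt_0 (c : Bool) (p : ℂ × ℂ) : pt c p 0 = p.1 := by
  cases c <;> simp [pt]

theorem pt_1 (c : Bool) (p : ℂ × ℂ) : pt c p 1 = p.2 := by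
  cases c <;> simp [pt]

theorem pt_2 (c : Bool) (p : ℂ × ℂ) : pt c p 2 = if c then 1 else 0 := by
  cases c <;> simp [pt]

theorem pt_mem (c : Bool) (p : ℂ × ℂ) : pt c p ∈ X2 := by
  rw [mem_X2, pt_2]
  cases c
  · left; rfl
  · right; rfl

theorem ext3 {x y : E3} (h0 : x 0 = y 0) (h1 : x 1 = y 1) (h2 : x 2 = y 2) : x = y := by
  ext i
  fin_cases i
  · exact h0
  · exact h1
  · exact h2

theorem pt_eq {c : Bool} {x : E3} (h : x 2 = if c then 1 else 0) : x = pt c (x 0, x 1) :=
  ext3 (pt_0 c (x 0, x 1)).symm (pt_1 c (x 0, x 1)).symm (h.trans (pt_2 c _).symm)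

theorem pt_diff (c : Bool) : Differentiable ℂ (pt c) := by
  unfold pt
  exact ((differentiable_fst.smul_const _).add (differentiable_snd.smul_const _)).add (differentiable_const _)

/-- restriction of a holomorphic map to one copy -/
theorem holo_pt {V : X2 → E3} (hV : Holo V) (c : Bool) (j : Fin 3) :
    Differentiable ℂ fun p : ℂ × ℂ => (V ⟨pt c p, pt_mem c p⟩) j := by
  intro p
  obtain ⟨U, g, hU, hx, hg, he⟩ := hV ⟨pt c p, pt_mem c p⟩
  have h1 : DifferentiableAt ℂ (fun p : ℂ × ℂ => (g (pt c p)) j) p :=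
    ((pr j).differentiableAt).comp p ((hg.differentiableAt (hU.mem_nhds hx)).comp p (pt_diff c p))
  refine h1.congr_of_eventuallyEq ?_
  have h2 : ∀ᶠ w in 𝓝 p, pt c w ∈ U := (pt_diff c).continuous.continuousAt.eventually_mem (hU.mem_nhds hx)
  filter_upwards [h2] with w hw
  rw [he ⟨pt c w, pt_mem c w⟩ hw]

theorem chi_pt (c d : Bool) (p : ℂ × ℂ) : chi c (pt d p) = if c = d then 1 else 0 := by
  unfold chi
  rw [pt_2]
  cases c <;> cases d <;> simp

theorem norm_un (i : Fin 3) : ‖un i‖ = 1 := by simp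

theorem densityC_X2 : DensityC X2 := by
  intro V hV K hK ε hε
  obtain ⟨R, hR0, hR⟩ : ∃ R : ℝ, 0 < R ∧ ∀ x ∈ K, ‖(x : E3) 0‖ ≤ R ∧ ‖(x : E3) 1‖ ≤ R := by
    obtain ⟨R, hR⟩ := hK.exists_bound_of_continuousOn (f := fun x : X2 => (x : E3)) continuous_subtype_val.continuousOn
    refine ⟨max R 1, lt_of_lt_of_le one_pos (le_max_right _ _), fun x hx => ?_⟩
    exact ⟨(PiLp.norm_apply_le _ _).trans ((hR x hx).trans (le_max_left _ _)),
      (PiLp.norm_apply_le _ _).trans ((hR x hx).trans (le_max_left _ _))⟩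
  have h1 : ∀ (c : Bool) (j : Fin 3), ∃ p ∈ P2, ∀ z : ℂ × ℂ, ‖z.1‖ ≤ R → ‖z.2‖ ≤ R →
      ‖(V ⟨pt c z, pt_mem c z⟩) j - p z‖ < ε / 2 := fun c j =>
    apx_entire (holo_pt hV.1 c j) R (ε / 2) hR0 (half_pos hε)
  choose p hp hpa using h1
  refine ⟨rs (fld false 0 fun z => p false 0 (z 0, z 1)) + rs (fld false 1 fun z => p false 1 (z 0, z 1)) +
    (rs (fld true 0 fun z => p true 0 (z 0, z 1)) + rs (fld true 1 fun z => p true 1 (z 0, z 1))), ?_, ?_⟩
  · exact LieAlg.add _ _ (LieAlg.add _ _ (LA_poly false (by decide) (hp _ _)) (LA_poly false (by decide) (hp _ _)))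
      (LieAlg.add _ _ (LA_poly true (by decide) (hp _ _)) (LA_poly true (by decide) (hp _ _)))
  · intro x hx
    obtain ⟨c, hc⟩ : ∃ c : Bool, (x : E3) 2 = if c then 1 else 0 := by
      rcases mem_X2.1 x.2 with h | h
      · exact ⟨false, h⟩
      · exact ⟨true, h⟩
    have hxe : x = ⟨pt c ((x : E3) 0, (x : E3) 1), pt_mem c _⟩ := Subtype.ext (pt_eq hc)
    have hV2 : (V x) 2 = 0 := tang_two x.2 (hV.2 x)
    have hb := hR x hx
    have a0 := hpa c 0 ((x : E3) 0, (x : E3) 1) hb.1 hb.2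
    have a1 := hpa c 1 ((x : E3) 0, (x : E3) 1) hb.1 hb.2
    rw [← hxe] at a0 a1
    have e1 : (rs (fld false 0 fun z => p false 0 (z 0, z 1)) + rs (fld false 1 fun z => p false 1 (z 0, z 1)) +
        (rs (fld true 0 fun z => p true 0 (z 0, z 1)) + rs (fld true 1 fun z => p true 1 (z 0, z 1)))) x - V x =
        (p c 0 ((x : E3) 0, (x : E3) 1) - (V x) 0) • un 0 + (p c 1 ((x : E3) 0, (x : E3) 1) - (V x) 1) • un 1 := by
      have hch : ∀ d : Bool, chi d x = if d = c then 1 else 0 := by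
        intro d
        conv_lhs => rw [hxe]
        exact chi_pt d c _
      simp only [Pi.add_apply, rs, fld, hch]
      apply ext3
      · cases c <;> simp
      · cases c <;> simp
      · cases c <;> simp [hV2]
    rw [e1]
    refine (norm_add_le _ _).trans_lt ?_
    rw [norm_smul, norm_smul, norm_un, norm_un, mul_one, mul_one, norm_sub_rev, norm_sub_rev (p c 1 _)]
    linarith

end Pool.Agent.H47.TB
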