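import Pool.Agent.H47.TB.Dens
import Pool.Agent.H47.TA.Fin

/-!
# A weakly tame set which is not tame

`D` consists of the points `(k, 0)`, `k = 0, 1, ...`, of the first copy of the plane and one point of the second copy.
-/

set_option autoImplicit false

namespace Pool.Agent.H47.TB

open Set Filter Topology Metric H67.Tame H67.Tame.Stmt

/-- entire functions with large values at the natural numbers -/
theorem exists_entire (C : ℕ → ℝ) : ∃ h : ℂ → ℂ, Differentiable ℂ h ∧ ∀ k : ℕ, C k ≤ ‖h k‖ := by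
  have h0 : ∀ j : ℕ, ∃ m : ℕ, |C j| * (1 / 2) ^ m ≤ (1 / 2) ^ j := by
    intro j
    have h1 : Tendsto (fun m : ℕ => |C j| * (1 / 2 : ℝ) ^ m) atTop (𝓝 (|C j| * 0)) :=
      (tendsto_pow_atTop_nhds_zero_of_lt_one (by norm_num) (by norm_num)).const_mul _
    rw [mul_zero] at h1
    obtain ⟨m, hm⟩ := (h1.eventually_lt_const (show (0 : ℝ) < (1 / 2) ^ j by positivity)).exists
    exact ⟨m, hm.le⟩
  choose m hm using h0
  let F : ℕ → ℂ → ℂ := fun j z => (|C j| : ℝ) * ((z + 1) / (j + 1)) ^ m j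
  have hF : ∀ (j : ℕ) (z : ℂ), ‖F j z‖ = |C j| * (‖z + 1‖ / (j + 1)) ^ m j := by
    intro j z
    have e : ‖((j : ℂ) + 1)‖ = (j : ℝ) + 1 := by
      have h1 : ((j : ℂ) + 1) = ((j + 1 : ℕ) : ℂ) := by push_cast; ring
      rw [h1, Complex.norm_natCast]
      push_cast
      ring
    simp only [F]
    rw [norm_mul, norm_pow, norm_div, e, Complex.norm_real, Real.norm_eq_abs, abs_abs]
  have key : ∀ J : ℕ, ∃ u : ℕ → ℝ, Summable u ∧ ∀ j, ∀ z ∈ ball (-1 : ℂ) ((J + 1) / 2), ‖F j z‖ ≤ u j := by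
    intro J
    refine ⟨fun j => (1 / 2) ^ j + if j < J then |C j| * (((J : ℝ) + 1) / 2 / (j + 1)) ^ m j else 0, ?_, ?_⟩
    · refine (summable_geometric_of_lt_one (by norm_num) (by norm_num)).add
        (summable_of_ne_finset_zero (s := Finset.range J) fun j hj => ?_)
      rw [Finset.mem_range] at hj
      rw [if_neg hj]
    · intro j z hz
      have hz1 : ‖z + 1‖ ≤ ((J : ℝ) + 1) / 2 := by
        rw [mem_ball, dist_eq_norm, sub_neg_eq_add] at hz
        exact hz.le
      rw [hF]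
      beta_reduce
      split_ifs with hj
      · have h1 : |C j| * (‖z + 1‖ / (j + 1)) ^ m j ≤ |C j| * (((J : ℝ) + 1) / 2 / (j + 1)) ^ m j := by
          gcongr
        have h2 : (0 : ℝ) ≤ (1 / 2) ^ j := by positivity
        linarith
      · have hjJ : (J : ℝ) ≤ j := by exact_mod_cast not_lt.1 hj
        have h1 : ‖z + 1‖ / (j + 1) ≤ 1 / 2 := by
          rw [div_le_iff₀ (by positivity)]
          linarith
        have h2 : |C j| * (‖z + 1‖ / (j + 1)) ^ m j ≤ |C j| * (1 / 2) ^ m j := by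
          gcongr
        linarith [hm j]
  have hcov : ∀ z : ℂ, ∃ J : ℕ, z ∈ ball (-1 : ℂ) ((J + 1) / 2) := by
    intro z
    obtain ⟨J, hJ⟩ := exists_nat_gt (2 * ‖z + 1‖)
    refine ⟨J, ?_⟩
    rw [mem_ball, dist_eq_norm, sub_neg_eq_add]
    linarith
  refine ⟨fun z => ∑' j, F j z, fun z => ?_, fun k => ?_⟩
  · obtain ⟨J, hJ⟩ := hcov z
    obtain ⟨u, hu, hu1⟩ := key J
    have h1 := Complex.differentiableOn_tsum_of_summable_norm hu (fun j => ?_) isOpen_ball hu1
    · exact h1.differentiableAt (isOpen_ball.mem_nhds hJ)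
    · have h2 : Differentiable ℂ (F j) := by
        exact (((differentiable_id.add_const 1).div_const _).pow _).const_mul _
      exact h2.differentiableOn
  · obtain ⟨J, hJ⟩ := hcov k
    obtain ⟨u, hu, hu1⟩ := key J
    have h1 : Summable fun j => F j k := Summable.of_norm_bounded hu fun j => hu1 j _ hJ
    have h2 := Complex.hasSum_re h1.hasSum
    have h3 : ∀ j, (F j k).re = |C j| * (((k : ℝ) + 1) / (j + 1)) ^ m j := by
      intro j
      have e : F j k = ((|C j| * (((k : ℝ) + 1) / (j + 1)) ^ m j : ℝ) : ℂ) := by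
        simp only [F]
        push_cast
        ring
      rw [e, Complex.ofReal_re]
    have h4 : (F k k).re ≤ (∑' j, F j k).re := le_hasSum h2 k fun j _ => by
      rw [h3]
      positivity
    rw [h3, div_self (by positivity), one_pow, mul_one] at h4
    exact (le_abs_self _).trans (h4.trans (Complex.re_le_norm _))

/-- automorphisms of `X2`: a translation on one copy, a shear on the other one -/
noncomputable def sh (s : ℂ) (h : ℂ → ℂ) (z : E3) : E3 :=
  z + ((s * chi true z) • un 0 + (chi false z * h (z 0)) • un 1)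

theorem sh_diff (s : ℂ) {h : ℂ → ℂ} (hh : Differentiable ℂ h) : Differentiable ℂ (sh s h) := by
  have h1 : ∀ c, Differentiable ℂ (chi c) := fun c z => (hasF_chi c z).differentiableAt
  exact differentiable_id.add ((((h1 true).const_mul s).smul_const _).add
    (((h1 false).mul (hh.comp (diff_coord 0))).smul_const _))

theorem sh_two (s : ℂ) (h : ℂ → ℂ) (z : E3) : sh s h z 2 = z 2 := by simp [sh]

theorem sh_zero (s : ℂ) (h : ℂ → ℂ) (z : E3) : sh s h z 0 = z 0 + s * chi true z := by simp [sh]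

theorem sh_one (s : ℂ) (h : ℂ → ℂ) (z : E3) : sh s h z 1 = z 1 + chi false z * h (z 0) := by simp [sh]

theorem sh_mem (s : ℂ) (h : ℂ → ℂ) {z : E3} (hz : z ∈ X2) : sh s h z ∈ X2 := by
  rw [mem_X2, sh_two]
  exact mem_X2.1 hz

theorem chi_sh (c : Bool) (s : ℂ) (h : ℂ → ℂ) (z : E3) : chi c (sh s h z) = chi c z := by
  unfold chi
  rw [sh_two]

theorem sh_sh (s : ℂ) (h : ℂ → ℂ) {z : E3} (hz : z ∈ X2) : sh (-s) (fun w => -h w) (sh s h z) = z := by
  apply ext3
  · rw [sh_zero, chi_sh, sh_zero]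
    ring
  · rw [sh_one, chi_sh, sh_one, sh_zero]
    rcases mem_X2.1 hz with h0 | h0
    · have e1 : chi true z = 0 := by simp [chi, h0]
      rw [e1]
      ring_nf
    · have e1 : chi false z = 0 := by simp [chi, h0]
      rw [e1]
      ring
  · rw [sh_two, sh_two]

/-- the automorphism -/
noncomputable def shE (s : ℂ) (h : ℂ → ℂ) : X2 ≃ X2 where
  toFun x := ⟨sh s h x, sh_mem s h x.2⟩
  invFun x := ⟨sh (-s) (fun w => -h w) x, sh_mem _ _ x.2⟩
  left_inv x := Subtype.ext (sh_sh s h x.2)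
  right_inv x := by
    apply Subtype.ext
    have h1 := sh_sh (-s) (fun w => -h w) x.2
    simp only [neg_neg] at h1
    exact h1

theorem isAut_shE (s : ℂ) {h : ℂ → ℂ} (hh : Differentiable ℂ h) : IsAut (shE s h) :=
  ⟨fun _ => ⟨univ, sh s h, isOpen_univ, mem_univ _, (sh_diff s hh).differentiableOn, fun _ _ => rfl⟩,
    fun _ => ⟨univ, sh (-s) fun w => -h w, isOpen_univ, mem_univ _, (sh_diff (-s) hh.neg).differentiableOn,
      fun _ _ => rfl⟩⟩

/-- points of `X2` -/
noncomputable def px (c : Bool) (a b : ℂ) : X2 := ⟨pt c (a, b), pt_mem c _⟩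

/-- the set -/
def DD : Set X2 := {x | (∃ k : ℕ, x = px false k 0) ∨ x = px true 0 0}

theorem shE_false (s : ℂ) (h : ℂ → ℂ) (a b : ℂ) : shE s h (px false a b) = px false a (b + h a) := by
  apply Subtype.ext
  change sh s h (pt false (a, b)) = pt false (a, b + h a)
  apply ext3
  · rw [sh_zero, chi_pt, pt_0, pt_0]
    simp
  · rw [sh_one, chi_pt, pt_0, pt_1, pt_1]
    simp
  · rw [sh_two, pt_2, pt_2]

theorem shE_true (s : ℂ) (h : ℂ → ℂ) (a b : ℂ) : shE s h (px true a b) = px true (a + s) b := by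
  apply Subtype.ext
  change sh s h (pt true (a, b)) = pt true (a + s, b)
  apply ext3
  · rw [sh_zero, chi_pt, pt_0, pt_0]
    simp
  · rw [sh_one, chi_pt, pt_0, pt_1, pt_1]
    simp
  · rw [sh_two, pt_2, pt_2]

/-- large values of exhaustion functions -/
theorem exh {ρ : X2 → ℝ} (hρ : Stmt.IsExhaustion ρ) (c : ℝ) : ∃ R : ℝ, ∀ x : X2, R ≤ ‖(x : E3)‖ → c ≤ ρ x := by
  obtain ⟨B, hB⟩ := (hρ.2 c).exists_bound_of_continuousOn (f := fun x : X2 => (x : E3)) continuous_subtype_val.continuousOn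
  refine ⟨B + 1, fun x hx => ?_⟩
  by_contra hcon
  push Not at hcon
  have h1 := hB x (subset_closure hcon)
  linarith

theorem weaklyTame_DD : Stmt.WeaklyTame DD := by
  refine ⟨?_, ?_, ?_⟩
  · have h1 : Function.Injective fun k : ℕ => px false k 0 := by
      intro k l hkl
      have h2 : pt false ((k : ℂ), 0) = pt false ((l : ℂ), 0) := congrArg Subtype.val hkl
      have h3 := congrArg (fun z : E3 => z 0) h2
      simp only [pt_0] at h3
      exact_mod_cast h3
    exact (Set.infinite_range_of_injective h1).mono (by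
      rintro x ⟨k, rfl⟩
      exact Or.inl ⟨k, rfl⟩)
  · constructor
    refine DiscreteTopology.of_forall_le_dist (r := 1) one_pos ?_
    rintro ⟨x, hx⟩ ⟨y, hy⟩ hxy
    have hxy' : x ≠ y := fun h => hxy (Subtype.ext h)
    change 1 ≤ dist (x : E3) (y : E3)
    rw [dist_eq_norm]
    have hge : ∀ i : Fin 3, 1 ≤ ‖(x : E3) i - (y : E3) i‖ → 1 ≤ ‖(x : E3) - (y : E3)‖ := by
      intro i hi
      exact hi.trans (PiLp.norm_apply_le ((x : E3) - (y : E3)) i)
    rcases hx with ⟨k, rfl⟩ | rfl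
    · rcases hy with ⟨l, rfl⟩ | rfl
      · apply hge 0
        change 1 ≤ ‖pt false ((k : ℂ), 0) 0 - pt false ((l : ℂ), 0) 0‖
        rw [pt_0, pt_0]
        have hkl : k ≠ l := fun h => hxy' (by rw [h])
        have h1 : ((k : ℂ) - l) = (((k : ℤ) - l : ℤ) : ℂ) := by push_cast; ring
        change 1 ≤ ‖(k : ℂ) - l‖
        rw [h1, Complex.norm_intCast]
        have h2 : (1 : ℤ) ≤ |(k : ℤ) - l| := Int.one_le_abs (sub_ne_zero.2 (by exact_mod_cast hkl))
        exact_mod_cast h2
      · apply hge 2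
        change 1 ≤ ‖pt false ((k : ℂ), 0) 2 - pt true (0, 0) 2‖
        rw [pt_2, pt_2]
        simp
    · rcases hy with ⟨l, rfl⟩ | rfl
      · apply hge 2
        change 1 ≤ ‖pt true (0, 0) 2 - pt false ((l : ℂ), 0) 2‖
        rw [pt_2, pt_2]
        simp
      · exact absurd rfl hxy'
  · intro ρ hρ ζ
    have h1 : ∀ k : ℕ, ∃ R : ℝ, ∀ x : X2, R ≤ ‖(x : E3)‖ → ζ ⟨px false k 0, Or.inl ⟨k, rfl⟩⟩ ≤ ρ x := fun k => exh hρ _
    choose R hR using h1
    obtain ⟨h, hh, hk⟩ := exists_entire R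
    obtain ⟨S, hS⟩ := exh hρ (ζ ⟨px true 0 0, Or.inr rfl⟩)
    refine ⟨shE ((|S| : ℝ) : ℂ) h, isAut_shE _ hh, ?_⟩
    rintro ⟨x, hx⟩
    rcases hx with ⟨k, rfl⟩ | rfl
    · refine hR k _ ?_
      rw [shE_false, zero_add]
      refine (hk k).trans ?_
      have h2 := PiLp.norm_apply_le (pt false ((k : ℂ), h k)) 1
      rw [pt_1] at h2
      exact h2
    · refine hS _ ?_
      rw [shE_true, zero_add]
      refine (le_abs_self S).trans ?_
      have h2 := PiLp.norm_apply_le (pt true (((|S| : ℝ) : ℂ), 0)) 0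
      rw [pt_0] at h2
      rw [Complex.norm_real, Real.norm_eq_abs, abs_abs] at h2
      exact h2

theorem not_tame_DD : ¬ Stmt.Tame DD := by
  intro hT
  have hc2 : Continuous fun x : X2 => (x : E3) 2 := (diff_coord 2).continuous.comp continuous_subtype_val
  rcases TA.tame_comp hT with h | h
  · have h1 := h (px false 0 0) (Or.inl ⟨0, by simp⟩) (px true 0 0) (Or.inr rfl)
    have hcl : IsClopen {x : X2 | (x : E3) 2 = 0} := by
      refine ⟨isClosed_eq hc2 continuous_const, ?_⟩
      have h2 : {x : X2 | (x : E3) 2 = 0}ᶜ = {x : X2 | (x : E3) 2 = 1} := by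
        ext x
        simp only [mem_compl_iff, mem_ofPred_eq]
        rcases mem_X2.1 x.2 with h3 | h3
        · rw [h3]; simp
        · rw [h3]; simp
      have h3 : IsClosed {x : X2 | (x : E3) 2 = 1} := isClosed_eq hc2 continuous_const
      rw [← h2] at h3
      exact isClosed_compl_iff.1 h3
    have h4 : (px true 0 0) ∈ {x : X2 | (x : E3) 2 = 0} :=
      hcl.connectedComponent_subset (x := px false 0 0) (pt_2 false (0, 0)) (h1 ▸ mem_connectedComponent)
    have h5 : pt true (0, 0) 2 = 0 := h4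
    rw [pt_2] at h5
    norm_num at h5
  · refine h (px false 0 0) (Or.inl ⟨0, by simp⟩) (px false 1 0) (Or.inl ⟨1, by simp⟩) ?_ ?_
    · intro h1
      have h2 : pt false ((0 : ℂ), 0) = pt false ((1 : ℂ), 0) := congrArg Subtype.val h1
      have h3 := congrArg (fun z : E3 => z 0) h2
      simp only [pt_0] at h3
      norm_num at h3
    · have h1 : Continuous fun p : ℂ × ℂ => (px false p.1 p.2 : X2) :=
        continuous_induced_rng.2 ((pt_diff false).continuous)
      have h2 : IsPreconnected (range fun p : ℂ × ℂ => (px false p.1 p.2 : X2)) := isPreconnected_range h1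
      exact connectedComponent_eq (h2.subset_connectedComponent ⟨(0, 0), rfl⟩ ⟨(1, 0), rfl⟩)

end Pool.Agent.H47.TB
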