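import Pool.Agent.H67.Tame.SCV

/-!
# Entire functions of two variables are locally uniform limits of polynomials

Taylor expansion in the first variable, whose coefficients are entire functions of the second
one, and Taylor expansion of the coefficients.
-/

set_option autoImplicit false

namespace Pool.Agent.H47.TB

open Set Filter Topology Metric

/-- the polynomials in two variables -/
def P2 : Submodule ℂ (ℂ × ℂ → ℂ) :=
  Submodule.span ℂ (Set.range fun a : ℕ × ℕ => fun p : ℂ × ℂ => p.1 ^ a.1 * p.2 ^ a.2)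

theorem mon_mem (a b : ℕ) : (fun p : ℂ × ℂ => p.1 ^ a * p.2 ^ b) ∈ P2 :=
  Submodule.subset_span ⟨(a, b), rfl⟩

/-- locally uniform limits of polynomials -/
def Apx (f : ℂ × ℂ → ℂ) : Prop :=
  ∀ R ε : ℝ, 0 < R → 0 < ε → ∃ p ∈ P2, ∀ z : ℂ × ℂ, ‖z.1‖ ≤ R → ‖z.2‖ ≤ R → ‖f z - p z‖ < ε

theorem Apx.of_mem {p : ℂ × ℂ → ℂ} (hp : p ∈ P2) : Apx p := fun R ε _ hε =>
  ⟨p, hp, fun z _ _ => by rw [sub_self, norm_zero]; exact hε⟩

theorem Apx.add {f g : ℂ × ℂ → ℂ} (hf : Apx f) (hg : Apx g) : Apx (fun z => f z + g z) := by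
  intro R ε hR hε
  obtain ⟨p, hp, h1⟩ := hf R (ε / 2) hR (half_pos hε)
  obtain ⟨q, hq, h2⟩ := hg R (ε / 2) hR (half_pos hε)
  refine ⟨p + q, P2.add_mem hp hq, fun z hz hz' => ?_⟩
  have e : f z + g z - (p + q) z = (f z - p z) + (g z - q z) := by
    rw [Pi.add_apply]
    ring
  rw [e]
  exact (norm_add_le _ _).trans_lt (by linarith [h1 z hz hz', h2 z hz hz'])

theorem Apx.sum {f : ℕ → ℂ × ℂ → ℂ} (hf : ∀ j, Apx (f j)) (J : ℕ) :
    Apx (fun z => ∑ j ∈ Finset.range J, f j z) := by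
  induction J with
  | zero =>
    simp only [Finset.range_zero, Finset.sum_empty]
    exact Apx.of_mem P2.zero_mem
  | succ J ih =>
    simp only [Finset.sum_range_succ]
    exact ih.add (hf J)

theorem mul_pow_mem {p : ℂ × ℂ → ℂ} (hp : p ∈ P2) (j : ℕ) :
    (fun z : ℂ × ℂ => z.1 ^ j * p z) ∈ P2 := by
  induction hp using Submodule.span_induction with
  | mem x hx =>
    obtain ⟨a, rfl⟩ := hx
    have e : (fun z : ℂ × ℂ => z.1 ^ j * (z.1 ^ a.1 * z.2 ^ a.2)) =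
        fun z : ℂ × ℂ => z.1 ^ (j + a.1) * z.2 ^ a.2 := by
      funext z
      rw [pow_add, mul_assoc]
    rw [e]
    exact mon_mem _ _
  | zero =>
    have e : (fun z : ℂ × ℂ => z.1 ^ j * (0 : ℂ × ℂ → ℂ) z) = 0 := by
      funext z
      simp
    rw [e]
    exact P2.zero_mem
  | add x y _ _ hx hy =>
    have e : (fun z : ℂ × ℂ => z.1 ^ j * (x + y) z) =
        (fun z : ℂ × ℂ => z.1 ^ j * x z) + fun z : ℂ × ℂ => z.1 ^ j * y z := by
      funext z
      simp only [Pi.add_apply]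
      ring
    rw [e]
    exact P2.add_mem hx hy
  | smul c x _ hx =>
    have e : (fun z : ℂ × ℂ => z.1 ^ j * (c • x) z) = c • fun z : ℂ × ℂ => z.1 ^ j * x z := by
      funext z
      simp only [Pi.smul_apply, smul_eq_mul]
      ring
    rw [e]
    exact P2.smul_mem c hx

theorem Apx.pow_mul {f : ℂ × ℂ → ℂ} (hf : Apx f) (j : ℕ) : Apx (fun z => z.1 ^ j * f z) := by
  intro R ε hR hε
  have hRj : 0 < R ^ j := pow_pos hR j
  obtain ⟨p, hp, h1⟩ := hf R (ε / R ^ j) hR (div_pos hε hRj)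
  refine ⟨_, mul_pow_mem hp j, fun z hz hz' => ?_⟩
  have h2 := h1 z hz hz'
  rw [← mul_sub, norm_mul, norm_pow]
  calc ‖z.1‖ ^ j * ‖f z - p z‖ ≤ R ^ j * ‖f z - p z‖ :=
        mul_le_mul_of_nonneg_right (pow_le_pow_left₀ (norm_nonneg _) hz j) (norm_nonneg _)
    _ < R ^ j * (ε / R ^ j) := mul_lt_mul_of_pos_left h2 hRj
    _ = ε := mul_div_cancel₀ _ hRj.ne'

/-- the remainder of the Taylor series -/
theorem taylor_rem {g : ℂ → ℂ} (hg : Differentiable ℂ g) {R M : ℝ} (hR : 0 < R)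
    (hM : ∀ z, ‖z‖ ≤ 2 * R → ‖g z‖ ≤ M) (J : ℕ) {z : ℂ} (hz : ‖z‖ ≤ R) :
    ‖g z - ∑ j ∈ Finset.range J, (j.factorial : ℂ)⁻¹ * iteratedDeriv j g 0 * z ^ j‖ ≤
      2 * M * (1 / 2) ^ J := by
  have h1 := Complex.hasSum_taylorSeries_of_entire hg 0 z
  have e1 : (fun n : ℕ => (n.factorial : ℂ)⁻¹ • (z - 0) ^ n • iteratedDeriv n g 0) =
      fun n : ℕ => (n.factorial : ℂ)⁻¹ * iteratedDeriv n g 0 * z ^ n := by
    funext n
    rw [sub_zero, smul_eq_mul, smul_eq_mul]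
    ring
  rw [e1] at h1
  have h2 := (hasSum_nat_add_iff' J).2 h1
  have h3 : HasSum (fun n : ℕ => M * (1 / 2) ^ J * (1 / 2 : ℝ) ^ n) (M * (1 / 2) ^ J * (1 - 1 / 2)⁻¹) :=
    (hasSum_geometric_of_lt_one (by norm_num) (by norm_num)).mul_left _
  have h4 : M * (1 / 2) ^ J * (1 - 1 / 2 : ℝ)⁻¹ = 2 * M * (1 / 2) ^ J := by
    norm_num
    ring
  rw [h4] at h3
  refine h2.norm_le_of_bounded h3 fun n => ?_
  have h5 := Complex.norm_iteratedDeriv_le_of_forall_mem_sphere_norm_le (c := 0) (R := 2 * R) (C := M)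
    (n + J) (by linarith) hg.diffContOnCl fun w hw => hM w (by
      rw [mem_sphere_zero_iff_norm] at hw
      exact hw.le)
  have hf : (0 : ℝ) < ((n + J).factorial : ℝ) := by exact_mod_cast (n + J).factorial_pos
  have hM0 : 0 ≤ M := (norm_nonneg _).trans (hM 0 (by rw [norm_zero]; linarith))
  rw [norm_mul, norm_mul, norm_inv, norm_pow, Complex.norm_natCast]
  calc ((n + J).factorial : ℝ)⁻¹ * ‖iteratedDeriv (n + J) g 0‖ * ‖z‖ ^ (n + J) ≤
        ((n + J).factorial : ℝ)⁻¹ * ((n + J).factorial * M / (2 * R) ^ (n + J)) * R ^ (n + J) := by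
        refine mul_le_mul (mul_le_mul_of_nonneg_left h5 (by positivity))
          (pow_le_pow_left₀ (norm_nonneg _) hz _) (by positivity) (by positivity)
    _ = M * (1 / 2) ^ J * (1 / 2) ^ n := by
        have e2 : (1 / 2 : ℝ) ^ J * (1 / 2) ^ n = (2 ^ (n + J))⁻¹ := by
          rw [← pow_add, add_comm J n, one_div, inv_pow]
        rw [mul_pow, mul_assoc M, e2]
        field_simp

theorem apx_snd {g : ℂ → ℂ} (hg : Differentiable ℂ g) : Apx (fun z => g z.2) := by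
  intro R ε hR hε
  obtain ⟨M, hM⟩ : ∃ M, ∀ z, ‖z‖ ≤ 2 * R → ‖g z‖ ≤ M := by
    obtain ⟨M, hM⟩ := (isCompact_closedBall (0 : ℂ) (2 * R)).exists_bound_of_continuousOn
      hg.continuous.continuousOn
    exact ⟨M, fun z hz => hM z (by rwa [mem_closedBall_zero_iff])⟩
  have h1 : Tendsto (fun J : ℕ => 2 * M * (1 / 2 : ℝ) ^ J) atTop (𝓝 (2 * M * 0)) :=
    (tendsto_pow_atTop_nhds_zero_of_lt_one (by norm_num) (by norm_num)).const_mul _
  rw [mul_zero] at h1
  obtain ⟨J, hJ⟩ := (h1.eventually_lt_const hε).exists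
  refine ⟨fun z => ∑ j ∈ Finset.range J, (j.factorial : ℂ)⁻¹ * iteratedDeriv j g 0 * z.2 ^ j, ?_,
    fun z _ hz => (taylor_rem hg hR hM J hz).trans_lt hJ⟩
  have e : (fun z : ℂ × ℂ => ∑ j ∈ Finset.range J, (j.factorial : ℂ)⁻¹ * iteratedDeriv j g 0 * z.2 ^ j) =
      ∑ j ∈ Finset.range J, ((j.factorial : ℂ)⁻¹ * iteratedDeriv j g 0) •
        fun z : ℂ × ℂ => z.1 ^ 0 * z.2 ^ j := by
    funext z
    rw [Finset.sum_apply]
    simp
  rw [e]
  exact P2.sum_mem fun j _ => P2.smul_mem _ (mon_mem 0 j)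

/-- the iterated derivatives in the first variable -/
noncomputable def Dj (f : ℂ × ℂ → ℂ) : ℕ → ℂ × ℂ → ℂ
  | 0 => f
  | j + 1 => fun z => fderiv ℂ (Dj f j) z (1, 0)

theorem Dj_diff {f : ℂ × ℂ → ℂ} (hf : Differentiable ℂ f) (j : ℕ) : Differentiable ℂ (Dj f j) := by
  induction j with
  | zero => exact hf
  | succ j ih => exact fun z =>
      H67.Tame.differentiableAt_fderiv_apply isOpen_univ ih.differentiableOn (mem_univ z) (1, 0)

theorem iter_eq {f : ℂ × ℂ → ℂ} (hf : Differentiable ℂ f) (w : ℂ) (j : ℕ) :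
    iteratedDeriv j (fun z => f (z, w)) = fun z => Dj f j (z, w) := by
  induction j with
  | zero =>
    rw [iteratedDeriv_zero]
    rfl
  | succ j ih =>
    rw [iteratedDeriv_succ, ih]
    funext z
    have h1 : HasDerivAt (fun z : ℂ => ((z, w) : ℂ × ℂ)) (1, 0) z :=
      (hasDerivAt_id z).prodMk (hasDerivAt_const z w)
    exact (((Dj_diff hf j) (z, w)).hasFDerivAt.comp_hasDerivAt z h1).deriv

/-- entire functions of two variables are locally uniform limits of polynomials -/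
theorem apx_entire {f : ℂ × ℂ → ℂ} (hf : Differentiable ℂ f) : Apx f := by
  intro R ε hR hε
  obtain ⟨M, hM⟩ : ∃ M, ∀ z : ℂ × ℂ, ‖z.1‖ ≤ 2 * R → ‖z.2‖ ≤ 2 * R → ‖f z‖ ≤ M := by
    obtain ⟨M, hM⟩ := ((isCompact_closedBall (0 : ℂ) (2 * R)).prod
      (isCompact_closedBall (0 : ℂ) (2 * R))).exists_bound_of_continuousOn hf.continuous.continuousOn
    exact ⟨M, fun z h1 h2 => hM z ⟨by rwa [mem_closedBall_zero_iff], by rwa [mem_closedBall_zero_iff]⟩⟩
  have h1 : Tendsto (fun J : ℕ => 2 * M * (1 / 2 : ℝ) ^ J) atTop (𝓝 (2 * M * 0)) :=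
    (tendsto_pow_atTop_nhds_zero_of_lt_one (by norm_num) (by norm_num)).const_mul _
  rw [mul_zero] at h1
  obtain ⟨J, hJ⟩ := (h1.eventually_lt_const (half_pos hε)).exists
  have h2 : Apx fun z => ∑ j ∈ Finset.range J, z.1 ^ j * ((j.factorial : ℂ)⁻¹ * Dj f j (0, z.2)) := by
    refine Apx.sum (fun j => Apx.pow_mul ?_ j) J
    exact apx_snd (g := fun w => (j.factorial : ℂ)⁻¹ * Dj f j (0, w))
      (((Dj_diff hf j).comp ((differentiable_const 0).prodMk differentiable_id)).const_mul _)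
  obtain ⟨p, hp, h3⟩ := h2 R (ε / 2) hR (half_pos hε)
  refine ⟨p, hp, fun z hz hz' => ?_⟩
  have h4 := taylor_rem (g := fun x => f (x, z.2)) (hf.comp (differentiable_id.prodMk (differentiable_const _))) hR
    (fun x hx => hM (x, z.2) hx (hz'.trans (by linarith))) J hz
  have e : ∑ j ∈ Finset.range J, (j.factorial : ℂ)⁻¹ * iteratedDeriv j (fun x => f (x, z.2)) 0 * z.1 ^ j =
      ∑ j ∈ Finset.range J, z.1 ^ j * ((j.factorial : ℂ)⁻¹ * Dj f j (0, z.2)) := by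
    refine Finset.sum_congr rfl fun j _ => ?_
    rw [iter_eq hf]
    ring
  rw [e] at h4
  have h5 := h3 z hz hz'
  have h6 : f z - p z = (f (z.1, z.2) - ∑ j ∈ Finset.range J, z.1 ^ j * ((j.factorial : ℂ)⁻¹ * Dj f j (0, z.2))) +
      (∑ j ∈ Finset.range J, z.1 ^ j * ((j.factorial : ℂ)⁻¹ * Dj f j (0, z.2)) - p z) := by
    rw [Prod.mk.eta]
    ring
  rw [h6]
  exact (norm_add_le _ _).trans_lt (by linarith)

end Pool.Agent.H47.TB
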