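import Pool.Agent.H67.Tame.Notions
import Pool.Agent.H47.TB.Poly

/-!
# Two disjoint copies of the plane have the density property

`X2 = ℂ² × {0, 1}`, the zero set of `z₂ (z₂ - 1)` in `ℂ³`.
-/

set_option autoImplicit false

namespace Pool.Agent.H47.TB

open Set Filter Topology Metric H67.Tame H67.Tame.Stmt

/-- the ambient space -/
abbrev E3 : Type := EuclideanSpace ℂ (Fin 3)

/-- two disjoint copies of the plane -/
def X2 : Set E3 := {z | z 2 * (z 2 - 1) = 0}

theorem mem_X2 {z : E3} : z ∈ X2 ↔ z 2 = 0 ∨ z 2 = 1 := by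
  unfold X2
  rw [mem_ofPred_eq, mul_eq_zero, sub_eq_zero]

/-- the coordinates -/
noncomputable abbrev pr (i : Fin 3) : E3 →L[ℂ] ℂ := EuclideanSpace.proj i

theorem hasF (i : Fin 3) (x : E3) : HasFDerivAt (fun z : E3 => z i) (pr i) x := (pr i).hasFDerivAt

theorem diff_coord (i : Fin 3) : Differentiable ℂ fun z : E3 => z i := (pr i).differentiable

theorem submanifold_X2 : Submanifold X2 2 := by
  refine ⟨?_, fun x hx => ⟨1, fun _ z => z 2 * (z 2 - 1), ?_, ?_, ?_, ?_, ?_⟩⟩
  · have h1 : Continuous fun z : E3 => z 2 * (z 2 - 1) :=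
      (diff_coord 2).continuous.mul ((diff_coord 2).continuous.sub continuous_const)
    exact isClosed_singleton.preimage h1
  · rw [finrank_euclideanSpace, Fintype.card_fin]
  · intro _
    exact (diff_coord 2).mul ((diff_coord 2).sub_const 1)
  · intro _ y hy
    exact hy
  · have h1 : HasFDerivAt (fun z : E3 => z 2 * (z 2 - 1)) (x 2 • pr 2 + (x 2 - 1) • pr 2) x :=
      (hasF 2 x).mul ((hasF 2 x).sub_const 1)
    have h2 : fderiv ℂ (fun z : E3 => z 2 * (z 2 - 1)) x ≠ 0 := by
      rw [h1.fderiv]
      intro h0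
      have h3 := congrArg (fun L : E3 →L[ℂ] ℂ => L (EuclideanSpace.single 2 1)) h0
      simp at h3
      rcases mem_X2.1 hx with h4 | h4
      · rw [h4] at h3
        norm_num at h3
      · rw [h4] at h3
        norm_num at h3
    exact LinearIndependent.of_subsingleton 0 h2
  · exact Eventually.of_forall fun y hy => hy 0

/-- the indicator functions of the two copies -/
noncomputable def chi (c : Bool) (z : E3) : ℂ := if c then z 2 else 1 - z 2

theorem chi_sq (c : Bool) {z : E3} (hz : z ∈ X2) : chi c z * chi c z = chi c z := by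
  rcases mem_X2.1 hz with h | h <;> cases c <;> simp [chi, h]

/-- unit vectors -/
noncomputable abbrev un (i : Fin 3) : E3 := EuclideanSpace.single i 1

theorem un_self (i : Fin 3) : (un i) i = 1 := by simp

theorem un_ne {i j : Fin 3} (h : j ≠ i) : (un i) j = 0 := by simp [h]

/-- the derivative of `chi` -/
noncomputable def dchi (c : Bool) : E3 →L[ℂ] ℂ := if c then pr 2 else -pr 2

theorem hasF_chi (c : Bool) (x : E3) : HasFDerivAt (chi c) (dchi c) x := by
  cases c
  · have h := (hasF 2 x).const_sub 1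
    exact h
  · exact hasF 2 x

theorem dchi_un (c : Bool) {i : Fin 3} (hi : i ≠ 2) : dchi c (un i) = 0 := by
  cases c
  · simp [dchi, hi.symm]
  · simp [dchi, hi.symm]

theorem chi_add (c : Bool) (z : E3) (t : ℂ) {i : Fin 3} (hi : i ≠ 2) : chi c (z + t • un i) = chi c z := by
  have h : (z + t • un i) 2 = z 2 := by simp [hi.symm]
  unfold chi
  rw [h]

theorem add_mem (z : E3) (hz : z ∈ X2) (t : ℂ) {i : Fin 3} (hi : i ≠ 2) : z + t • un i ∈ X2 := by
  have h : (z + t • un i) 2 = z 2 := by simp [hi.symm]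
  rw [mem_X2, h]
  exact mem_X2.1 hz

/-- fields `χ p ∂_i` -/
noncomputable def fld (c : Bool) (i : Fin 3) (p : E3 → ℂ) (z : E3) : E3 := (chi c z * p z) • un i

/-- the restriction to `X2` -/
def rs (V : E3 → E3) : X2 → E3 := fun x => V x

theorem tang_un {x : E3} (hx : x ∈ X2) {i : Fin 3} (hi : i ≠ 2) : un i ∈ tang X2 x := by
  intro f hf h0
  have h1 : HasDerivAt (fun t : ℂ => x + t • un i) (un i) 0 := by
    have h := ((hasDerivAt_id (0 : ℂ)).smul_const (un i)).const_add x
    simpa using h
  have h2 : HasDerivAt (fun t : ℂ => f (x + t • un i)) (fderiv ℂ f x (un i)) 0 := by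
    have h3 : HasFDerivAt f (fderiv ℂ f x) (x + (0 : ℂ) • un i) := by
      rw [zero_smul, add_zero]
      exact (hf x).hasFDerivAt
    exact h3.comp_hasDerivAt (0 : ℂ) h1
  have h4 : (fun t : ℂ => f (x + t • un i)) = fun _ => 0 := funext fun t => h0 _ (add_mem x hx t hi)
  rw [h4] at h2
  exact h2.unique (hasDerivAt_const 0 0)

theorem isField_fld (c : Bool) {i : Fin 3} (hi : i ≠ 2) {p : E3 → ℂ} (hp : Differentiable ℂ p) :
    IsField (rs (fld c i p)) := by
  refine ⟨fun x => ⟨univ, fld c i p, isOpen_univ, mem_univ _, ?_, fun y _ => rfl⟩,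
    fun x => (tang X2 x).smul_mem _ (tang_un x.2 hi)⟩
  have h1 : Differentiable ℂ fun z => chi c z * p z := fun z => (hasF_chi c z).differentiableAt.mul (hp z)
  exact (h1.smul_const (un i)).differentiableOn

/-- the bracket of two fields -/
theorem bracket_fld (c : Bool) {i k : Fin 3} (hi : i ≠ 2) (hk : k ≠ 2) {p q : E3 → ℂ}
    (hp : Differentiable ℂ p) (hq : Differentiable ℂ q) :
    IsBracket (rs (fld c i p)) (rs (fld c k q))
      (rs fun z => fld c k (fun z => p z * fderiv ℂ q z (un i)) z - fld c i (fun z => q z * fderiv ℂ p z (un k)) z) := by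
  have hd : ∀ (j : Fin 3) (g : E3 → ℂ), Differentiable ℂ g → ∀ z : E3,
      HasFDerivAt (fld c j g) ((chi c z • fderiv ℂ g z + g z • dchi c).smulRight (un j)) z := by
    intro j g hg z
    exact ((hasF_chi c z).mul (hg z).hasFDerivAt).smul_const (un j)
  intro x
  refine ⟨univ, fld c i p, fld c k q, isOpen_univ, mem_univ _, ?_, ?_, fun y _ => ⟨rfl, rfl⟩, ?_⟩
  · exact fun z _ => (hd i p hp z).differentiableAt.differentiableWithinAt
  · exact fun z _ => (hd k q hq z).differentiableAt.differentiableWithinAt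
  · rw [(hd k q hq x).fderiv, (hd i p hp x).fderiv]
    have hx := chi_sq c x.2
    simp only [rs, fld, ContinuousLinearMap.smulRight_apply, map_smul, add_apply,
      smul_apply, smul_eq_mul, dchi_un c hi, dchi_un c hk, mul_zero, add_zero, smul_smul]
    congr 2
    · linear_combination (-(p x * fderiv ℂ q x (un i))) * hx
    · linear_combination (-(q x * fderiv ℂ p x (un k))) * hx

/-- complete fields: shears and overshears -/
theorem complete_shear (c : Bool) {i k : Fin 3} (hi : i ≠ 2) (hik : i ≠ k) (b : ℕ) :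
    ComplexComplete (rs (fld c i fun z => z k ^ b)) := by
  intro x
  refine ⟨fun t => ⟨(x : E3) + (t * (chi c x * (x : E3) k ^ b)) • un i, add_mem x x.2 _ hi⟩, ?_, fun t => ?_⟩
  · apply Subtype.ext
    simp
  · have h1 : ((x : E3) + (t * (chi c x * (x : E3) k ^ b)) • un i) k = (x : E3) k := by
      simp [hik.symm]
    have h2 : HasDerivAt (fun t : ℂ => (x : E3) + (t * (chi c x * (x : E3) k ^ b)) • un i)
        ((chi c x * (x : E3) k ^ b) • un i) t := by
      have h := (((hasDerivAt_id t).mul_const (chi c x * (x : E3) k ^ b)).smul_const (un i)).const_add (x : E3)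
      simpa using h
    have h3 : rs (fld c i fun z => z k ^ b) ⟨(x : E3) + (t * (chi c x * (x : E3) k ^ b)) • un i, add_mem x x.2 _ hi⟩ =
        (chi c x * (x : E3) k ^ b) • un i := by
      change (chi c ((x : E3) + (t * (chi c x * (x : E3) k ^ b)) • un i) *
        ((x : E3) + (t * (chi c x * (x : E3) k ^ b)) • un i) k ^ b) • un i = _
      rw [chi_add c _ _ hi, h1]
    rw [h3]
    exact h2

theorem complete_over (c : Bool) {i k : Fin 3} (hi : i ≠ 2) (hik : i ≠ k) (b : ℕ) :
    ComplexComplete (rs (fld c i fun z => z i * z k ^ b)) := by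
  intro x
  let m : ℂ := chi c x * (x : E3) k ^ b
  refine ⟨fun t => ⟨(x : E3) + ((x : E3) i * (Complex.exp (t * m) - 1)) • un i, add_mem x x.2 _ hi⟩, ?_, fun t => ?_⟩
  · apply Subtype.ext
    simp
  · have h1 : ((x : E3) + ((x : E3) i * (Complex.exp (t * m) - 1)) • un i) k = (x : E3) k := by
      simp [hik.symm]
    have h1' : ((x : E3) + ((x : E3) i * (Complex.exp (t * m) - 1)) • un i) i = (x : E3) i * Complex.exp (t * m) := by
      simp
      ring
    have h2 : HasDerivAt (fun t : ℂ => (x : E3) + ((x : E3) i * (Complex.exp (t * m) - 1)) • un i)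
        (((x : E3) i * (Complex.exp (t * m) * m)) • un i) t := by
      have h0 : HasDerivAt (fun t : ℂ => Complex.exp (t * m)) (Complex.exp (t * m) * m) t := by
        have h := ((hasDerivAt_id t).mul_const m).cexp
        simpa using h
      exact (((h0.sub_const 1).const_mul ((x : E3) i)).smul_const (un i)).const_add (x : E3)
    have h3 : rs (fld c i fun z => z i * z k ^ b) ⟨(x : E3) + ((x : E3) i * (Complex.exp (t * m) - 1)) • un i, add_mem x x.2 _ hi⟩ =
        ((x : E3) i * (Complex.exp (t * m) * m)) • un i := by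
      change (chi c ((x : E3) + ((x : E3) i * (Complex.exp (t * m) - 1)) • un i) *
        (((x : E3) + ((x : E3) i * (Complex.exp (t * m) - 1)) • un i) i *
        ((x : E3) + ((x : E3) i * (Complex.exp (t * m) - 1)) • un i) k ^ b)) • un i = _
      rw [chi_add c _ _ hi, h1, h1']
      congr 1
      simp only [m]
      ring
    rw [h3]
    exact h2

end Pool.Agent.H47.TB
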